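import Pool.Agent.PLT.B

/-!
The cycle of length eight with two long chords.
-/

open Finset

namespace Pool.Agent.LKA

open Pool.Agent.TwoDens Pool.Agent.PLT

/-- the adjacency of the graph -/
def adj8 (x y : Fin 8) : Bool :=
  x.val + 1 == y.val || y.val + 1 == x.val || (x.val == 0 && y.val == 7) ||
  (x.val == 7 && y.val == 0) || (x.val == 0 && y.val == 4) || (x.val == 4 && y.val == 0) ||
  (x.val == 1 && y.val == 5) || (x.val == 5 && y.val == 1)

/-- the graph -/
def G8 : SimpleGraph (Fin 8) where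
  Adj x y := adj8 x y = true
  symm := ⟨by decide⟩
  loopless := ⟨by decide⟩

instance : DecidableRel G8.Adj := fun x y => inferInstanceAs (Decidable (adj8 x y = true))

set_option maxRecDepth 100000 in
theorem sl8 : Sl G8 3 := by
  unfold Sl e2
  decide +kernel

set_option maxRecDepth 100000 in
theorem indep8 : ∀ I : Finset (Fin 8), (∀ x ∈ I, ∀ y ∈ I, ¬ G8.Adj x y) → I.card ≤ 3 := by
  decide +kernel

theorem ex8 : Ex 3 8 3 := by
  refine ⟨Fin 8, inferInstance, inferInstance, G8, inferInstance, Fintype.card_fin 8, sl8, ?_⟩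
  intro I hI
  refine indep8 I fun x hx y hy hadj => ?_
  exact hI (Finset.mem_coe.2 hx) (Finset.mem_coe.2 hy) hadj.ne hadj

theorem ex5 : Ex 3 5 2 :=
  (Inv.all (k := 3) (p := 1) (by omega) (by omega) (by omega) (by omega) (by omega) 1).ex

/-- `2 s + j` vertices and independence number at most `s`, if `3 j ≤ 2 s` -/
theorem exTwo {s j : ℕ} (hj : 3 * j ≤ 2 * s) : Ex 3 (2 * s + j) s := by
  have h2 : Ex 3 2 1 := Ex.base (k := 3) (by omega)
  rcases Nat.even_or_odd' j with ⟨i, hi | hi⟩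
  · obtain ⟨q, hq⟩ : ∃ q, s = 3 * i + q := ⟨s - 3 * i, by omega⟩
    have h5 := Ex.add (by omega) (Ex.mul (by omega) ex8 i) (Ex.mul (by omega) h2 q)
    have e1 : i * 8 + q * 2 = 2 * s + j := by omega
    have e2 : i * 3 + q * 1 = s := by omega
    rwa [e1, e2] at h5
  · obtain ⟨q, hq⟩ : ∃ q, s = 3 * i + 2 + q := ⟨s - (3 * i + 2), by omega⟩
    have h5 := Ex.add (by omega) (Ex.add (by omega) (Ex.mul (by omega) ex8 i) ex5)
      (Ex.mul (by omega) h2 q)
    have e1 : i * 8 + 5 + q * 2 = 2 * s + j := by omega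
    have e2 : i * 3 + 2 + q * 1 = s := by omega
    rwa [e1, e2] at h5

end Pool.Agent.LKA
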