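import Pool.Agent.K3K.LL
import Pool.Agent.LKA.Eight
import Pool.Agent.PLT.D

/-!
The level `(k + 1) / 2` of the minimum 2-density.
-/

open Finset

namespace Pool.Agent.LKA

open Pool.Agent.K3K Pool.Agent.TwoDens Pool.Agent.TwoDens.RK Pool.Agent.TwoDens.DD
  Pool.Agent.TwoDens.TS Pool.Agent.TwoDens.K3K Pool.Agent.PLT

/-- Lemma L_k -/
theorem lemL2 {V : Type} [LinearOrder V] (G : SimpleGraph V) [DecidableRel G.Adj] (k : ℕ)
    {A : Finset V} (hA : Ind G A) :
    2 * (k + 1) * A.card ≤ e2 G A + (k ^ 2 + k + 2) * al G A + 2 * k := by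
  rw [sq]
  exact lemL G hA k

/-- a set with many vertices contains a dense subset -/
theorem exists_dense {V : Type} [LinearOrder V] (G : SimpleGraph V) [DecidableRel G.Adj]
    {k : ℕ} (hk : 1 ≤ k) {Y : Finset V} (hY : (k ^ 2 + k + 2) * al G Y < (k + 1) * Y.card) :
    ∃ A ⊆ Y, 3 ≤ A.card ∧ (k + 1) * A.card + 1 ≤ e2 G A + 2 * k := by
  obtain ⟨P, hP⟩ := exists_dec (G := G) Y
  have hc : ∑ q ∈ P, q.card = Y.card := by
    have h0 : (P.biUnion id).card = ∑ X ∈ P, X.card :=
      card_biUnion (fun A hA B hB h => hP.disj A hA B hB h)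
    rw [hP.un] at h0
    exact h0.symm
  have hex : ∃ q ∈ P, (k ^ 2 + k + 2) * al G q < (k + 1) * q.card := by
    by_contra hcon
    push Not at hcon
    have h1 : ∑ q ∈ P, (k + 1) * q.card ≤ ∑ q ∈ P, (k ^ 2 + k + 2) * al G q :=
      sum_le_sum hcon
    rw [← mul_sum, ← mul_sum, hP.sum, hc] at h1
    omega
  obtain ⟨A, hA, hlt⟩ := hex
  have hI := hP.ind A hA
  have hL := lemL2 G k hI
  have hpos := al_pos (G := G) hI.1
  have h3 : 3 ≤ A.card := by
    by_contra h4
    have h5 : A.card ≤ 2 := by omega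
    have h6 : (k + 1) * A.card ≤ (k + 1) * 2 := Nat.mul_le_mul_left _ h5
    have h7 : (k ^ 2 + k + 2) * 1 ≤ (k ^ 2 + k + 2) * al G A := Nat.mul_le_mul_left _ hpos
    nlinarith
  refine ⟨A, hP.sub hA, h3, ?_⟩
  have h8 : 2 * (k + 1) * A.card = (k + 1) * A.card + (k + 1) * A.card := by ring
  omega

/-- above the threshold the minimum 2-density is larger than `(k + 1) / 2` -/
theorem lower {k m s : ℕ} (hk : 1 ≤ k) (hs : 1 ≤ s)
    (h : (k ^ 2 + k + 2) * s < (k + 1) * m) :
    ((k : ℝ) + 1) / 2 < minTwoDensity m (s + 1) := by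
  have hm : 3 ≤ m := by
    by_contra hcon
    have h1 : m ≤ 2 := by omega
    have h2 : (k + 1) * m ≤ (k + 1) * 2 := Nat.mul_le_mul_left _ h1
    have h3 : (k ^ 2 + k + 2) * 1 ≤ (k ^ 2 + k + 2) * s := Nat.mul_le_mul_left _ hs
    nlinarith
  have hm' : (3 : ℝ) ≤ m := by exact_mod_cast hm
  have hpos : (0 : ℝ) < 1 / (2 * ((m : ℝ) - 2)) := by
    apply div_pos one_pos
    linarith
  refine lt_of_lt_of_le (b := ((k : ℝ) + 1) / 2 + 1 / (2 * ((m : ℝ) - 2))) (by linarith) ?_
  refine le_minTwoDensity (by omega) ?_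
  intro G _ hα
  have hal : al G Finset.univ ≤ s := al_le (fun I _ hI => by
    have := hα I hI
    omega)
  have hn : (Finset.univ : Finset (Fin m)).card = m := by
    rw [Finset.card_univ, Fintype.card_fin]
  have h1 : (k ^ 2 + k + 2) * al G (Finset.univ : Finset (Fin m)) <
      (k + 1) * (Finset.univ : Finset (Fin m)).card := by
    rw [hn]
    exact lt_of_le_of_lt (Nat.mul_le_mul_left _ hal) h
  obtain ⟨A, hA, hA3, hAe⟩ := exists_dense G hk h1
  refine ⟨A, hA3, ?_⟩
  have hAm : A.card ≤ m := by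
    have := card_le_card hA
    rwa [hn] at this
  have h2 : (3 : ℝ) ≤ A.card := by exact_mod_cast hA3
  have h3 : (A.card : ℝ) ≤ m := by exact_mod_cast hAm
  have h4 : ((k : ℝ) + 1) * A.card + 1 ≤ e2 G A + 2 * k := by exact_mod_cast hAe
  have h5 : 2 * (1 / (2 * ((m : ℝ) - 2))) * ((A.card : ℝ) - 2) ≤ 1 := by
    have h6 : 2 * (1 / (2 * ((m : ℝ) - 2))) * ((A.card : ℝ) - 2) =
        ((A.card : ℝ) - 2) / ((m : ℝ) - 2) := by
      have : (m : ℝ) - 2 ≠ 0 := by linarith
      field_simp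
    rw [h6, div_le_one (by linarith)]
    linarith
  nlinarith

/-- a graph with two vertices -/
theorem exOne : Ex 2 2 1 := by
  classical
  refine ⟨Fin 2, inferInstance, inferInstance, ⊤, inferInstance, Fintype.card_fin 2, ?_,
    fun I hI => indep_top hI⟩
  intro Y
  have h2 := e2_top (V := Fin 2) Y
  have h4 : Y.card ≤ 2 := by
    have := Finset.card_le_univ Y
    rwa [Fintype.card_fin] at this
  generalize e2 (⊤ : SimpleGraph (Fin 2)) Y = y at *
  generalize Y.card = f at *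
  refine ⟨fun h => ?_, fun h => ?_⟩
  · have h5 : f = 1 ∨ f = 2 := by omega
    rcases h5 with rfl | rfl <;> omega
  · have h5 : f = 2 := by omega
    subst h5
    omega

/-- the construction for all `k ≥ 1` -/
theorem exAll {k s : ℕ} (hk : 1 ≤ k) : Ex (k + 1) (k * s + 2 * s / (k + 1)) s := by
  have hj : (k + 1) * (2 * s / (k + 1)) ≤ 2 * s := Nat.mul_div_le _ _
  rcases Nat.lt_or_ge k 3 with h | h
  · have h1 : k = 1 ∨ k = 2 := by omega
    rcases h1 with rfl | rfl
    · have h2 : 2 * s / (1 + 1) = s := by omega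
      rw [h2]
      have h3 := Ex.mul (by omega) exOne s
      have e1 : s * 2 = 1 * s + s := by ring
      have e2 : s * 1 = s := by ring
      rwa [e1, e2] at h3
    · exact exTwo hj
  · exact Ex.main h hj

theorem upper {k m s : ℕ} (hk : 1 ≤ k) (h : (k + 1) * m ≤ (k ^ 2 + k + 2) * s) :
    minTwoDensity m (s + 1) ≤ ((k : ℝ) + 1) / 2 := by
  obtain ⟨V, i1, i2, G, i3, h1, h2, h3⟩ := exAll (s := s) hk
  refine minTwoDensity_le (by positivity) G ?_ (fun I hI => Nat.lt_succ_of_le (h3 I hI)) ?_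
  · rw [h1]
    have h4 : (k + 1) * (m - k * s) ≤ 2 * s := by
      rw [Nat.mul_sub]
      have : (k ^ 2 + k + 2) * s = (k + 1) * (k * s) + 2 * s := by ring
      omega
    have h5 : m - k * s ≤ 2 * s / (k + 1) := by
      rw [Nat.le_div_iff_mul_le (by omega), mul_comm]
      exact h4
    omega
  · intro Y hY
    have h4 := (h2 Y).2 (by omega)
    have h5 : (e2 G Y : ℝ) + 2 * (k + 1) ≤ (k + 1) * Y.card + 2 := by exact_mod_cast h4
    linarith

/-- the level `(k + 1) / 2` -/
theorem level {k m s : ℕ} (hk : 1 ≤ k) (hs : 1 ≤ s) :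
    minTwoDensity m (s + 1) ≤ ((k : ℝ) + 1) / 2 ↔ (k + 1) * m ≤ (k ^ 2 + k + 2) * s := by
  constructor
  · intro h
    by_contra hcon
    push Not at hcon
    exact absurd h (not_le.2 (lower hk hs hcon))
  · exact upper hk

end Pool.Agent.LKA
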